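import Pool.Agent.H92.KST.TargetsX

/-!
# NA5: finiteness of the integral closure (helper45)
-/

set_option autoImplicit false

universe u

namespace Pool.Agent.H45.KST

open Pool.Agent.H92.KST

theorem pf_NA5 : T_NA5.{u} := by
  intro P F _ _ _ _ _ _ _ hinj B hB hfrac hex
  obtain ⟨r, hrB, hr0, hr⟩ := hex
  have : FaithfulSMul P F := (faithfulSMul_iff_algebraMap_injective P F).2 hinj
  let : Algebra (FractionRing P) F := FractionRing.liftAlgebra P F
  have : IsScalarTower P (FractionRing P) F := FractionRing.isScalarTower_liftAlgebra P F
  have : CharZero (FractionRing P) :=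
    RingHom.charZero (algebraMap (FractionRing P) F)
  have hrint : IsIntegral P r := by
    obtain ⟨k, hk⟩ := hr r hrB
    rw [← pow_succ] at hk
    exact hk.of_pow (Nat.succ_pos k)
  have halg : ∀ b ∈ B, IsIntegral (FractionRing P) b := by
    intro b hb
    obtain ⟨k, hk⟩ := hr b hb
    have h1 : IsIntegral (FractionRing P) (r ^ k * b) := hk.tower_top
    have h2 : IsIntegral (FractionRing P) (r ^ k) := IsIntegral.pow hrint.tower_top k
    have h3 : b = (r ^ k)⁻¹ * (r ^ k * b) := (inv_mul_cancel_left₀ (pow_ne_zero _ hr0) b).symm
    rw [h3]
    exact h2.inv.mul h1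
  obtain ⟨S, hS⟩ := hB
  have hSB : ∀ x ∈ (S : Set F), x ∈ B := fun x hx => hS ▸ Algebra.subset_adjoin hx
  have : FiniteDimensional (FractionRing P) (IntermediateField.adjoin (FractionRing P)
      (S : Set F)) := IntermediateField.finiteDimensional_adjoin fun x hx => halg x (hSB x hx)
  have hle : ∀ b ∈ B, b ∈ IntermediateField.adjoin (FractionRing P) (S : Set F) := by
    intro b hb
    rw [← hS] at hb
    induction hb using Algebra.adjoin_induction with
    | mem x hx => exact IntermediateField.subset_adjoin _ _ hx
    | algebraMap c =>
      rw [IsScalarTower.algebraMap_apply P (FractionRing P) F]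
      exact IntermediateField.algebraMap_mem _ _
    | add x y _ _ hx hy => exact add_mem hx hy
    | mul x y _ _ hx hy => exact mul_mem hx hy
  have htop : IntermediateField.adjoin (FractionRing P) (S : Set F) = ⊤ := by
    refine top_unique fun f _ => ?_
    obtain ⟨a, ha, b, hb, _, rfl⟩ := hfrac f
    exact div_mem (hle a ha) (hle b hb)
  have : FiniteDimensional (FractionRing P) F := by
    have h1 : FiniteDimensional (FractionRing P) (⊤ : IntermediateField (FractionRing P) F) := by
      rw [← htop]
      infer_instance
    exact LinearEquiv.finiteDimensional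
      (IntermediateField.topEquiv (F := FractionRing P) (E := F)).toLinearEquiv
  exact IsIntegralClosure.isNoetherianRing P (FractionRing P) F (integralClosure P F)

end Pool.Agent.H45.KST
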